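import Mathlib
import Pool.Agent.Helper113.GCore

set_option autoImplicit false

universe u

namespace Pool.Agent.Results.MP_089608_lc.PolarizedFails

/-- The polarized relation (κ, κ) → (η₀ η₁; η₂ η₃)^{1,1} of the problem file: for every partition of
`κ × κ` into two pieces `Δ₀`, `Δ₁` there are `H₁, H₂ ⊆ κ` of sizes `η₀, η₂` with
`H₁ × H₂ ⊆ Δ₀`, or there are `H₁, H₂ ⊆ κ` of sizes `η₁, η₃` with `H₁ × H₂ ⊆ Δ₁`. -/
def Polarized (κ η₀ η₁ η₂ η₃ : Cardinal.{u}) : Prop :=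
  ∀ Δ₀ Δ₁ : Set (κ.ord.ToType × κ.ord.ToType), Δ₀ ∪ Δ₁ = Set.univ → Δ₀ ∩ Δ₁ = ∅ →
    (∃ H₁ H₂ : Set κ.ord.ToType,
      Cardinal.mk H₁ = η₀ ∧ Cardinal.mk H₂ = η₂ ∧ H₁ ×ˢ H₂ ⊆ Δ₀) ∨
    (∃ H₁ H₂ : Set κ.ord.ToType,
      Cardinal.mk H₁ = η₁ ∧ Cardinal.mk H₂ = η₃ ∧ H₁ ×ˢ H₂ ⊆ Δ₁)

/-- The relation `(∗)_η` at `κ = lam⁺`. -/
def Star (lam η : Cardinal.{u}) : Prop :=
  Polarized (Order.succ lam) (Order.succ lam) lam (Order.succ lam) η

/-- Under GCH, for every singular cardinal `lam` the relation `(∗)_η` fails for every `η ≥ 2`. -/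
theorem result
    (gch : ∀ κ : Cardinal.{u}, Cardinal.aleph0 ≤ κ → (2 : Cardinal.{u}) ^ κ = Order.succ κ)
    (lam : Cardinal.{u}) (hlam : lam.IsSingular) (η : Cardinal.{u}) (hη : 2 ≤ η) :
    ¬ Star lam η := by
  intro hstar
  obtain ⟨hsl, h2⟩ := Pool.Agent.Helper113.G.hyps_of_gch gch hlam
  obtain ⟨N, hN1, hN2, hN3, _⟩ := Pool.Agent.Helper113.G.core hlam hsl h2
    (K := (Order.succ lam).ord.ToType) (Cardinal.mk_ord_toType _)
    (Pool.Agent.Helper113.G.mk_Iio_toType_le lam)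
  have hbig : ∀ A : Set (Order.succ lam).ord.ToType, Cardinal.mk A = Order.succ lam →
      ∀ γ, ∃ α ∈ A, γ < α := by
    intro A hA
    refine Pool.Agent.Helper113.G.unbounded_of_big hlam.aleph0_le
      (Pool.Agent.Helper113.G.mk_Iio_toType_le lam) A ?_
    rw [hA]
    exact not_le.2 (Order.lt_succ lam)
  rcases hstar {p | p.1 ∉ N p.2} {p | p.1 ∈ N p.2} (by
      ext p
      simp only [Set.mem_union, Set.mem_ofPred_eq, Set.mem_univ, iff_true]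
      tauto) (by
      ext p
      simp only [Set.mem_inter_iff, Set.mem_ofPred_eq, Set.mem_empty_iff_false, iff_false]
      tauto) with ⟨H₁, H₂, h1, h2, h3⟩ | ⟨H₁, H₂, h1, h2, h3⟩
  · obtain ⟨b, hb⟩ := hN2 H₁ (hbig H₁ h1)
    obtain ⟨α, hα, hbα⟩ := hbig H₂ h2 b
    obtain ⟨x, hx, hxα⟩ := hb α hbα
    exact h3 (Set.mk_mem_prod hx hα) hxα
  · have h4 : 1 < Cardinal.mk H₂ := by
      rw [h2]
      exact lt_of_lt_of_le (by norm_num) hη
    rw [Cardinal.one_lt_iff_nontrivial] at h4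
    obtain ⟨α, β, hne⟩ := h4
    have key : ∀ α β : H₂, β.1 < α.1 → False := by
      intro α β hlt
      have h5 : H₁ ⊆ N α.1 ∩ N β.1 := fun x hx =>
        ⟨h3 (Set.mk_mem_prod hx α.2), h3 (Set.mk_mem_prod hx β.2)⟩
      have h6 := Cardinal.mk_le_mk_of_subset h5
      rw [h1] at h6
      exact absurd (hN3 α.1 β.1 hlt) (not_lt.2 h6)
    rcases lt_trichotomy α.1 β.1 with h | h | h
    · exact key β α h
    · exact hne (Subtype.ext h)
    · exact key α β h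

end Pool.Agent.Results.MP_089608_lc.PolarizedFails
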